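import Mathlib

/-!
# The differential equations of the polynomials in the entries of `Y` when `q Y' = Y β`
-/

set_option autoImplicit false

open Polynomial Matrix Finset

namespace Pool.Agent.Helper36.BM

variable {R : Type*} [CommRing R] {g n : ℕ}

/-- the monomial `m` in the entries of `Y` -/
noncomputable def mon (Y : Matrix (Fin g) (Fin n) R[X]) (m : Fin g × Fin n →₀ ℕ) : R[X] :=
  ∏ s, Y s.1 s.2 ^ m s

/-- the exponents `m - e_s + e_(s.1, l)` -/
noncomputable def shift (m : Fin g × Fin n →₀ ℕ) (s : Fin g × Fin n) (l : Fin n) :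
    Fin g × Fin n →₀ ℕ :=
  m - Finsupp.single s 1 + Finsupp.single (s.1, l) 1

theorem degree_shift {m : Fin g × Fin n →₀ ℕ} {s : Fin g × Fin n} (hs : m s ≠ 0) (l : Fin n) :
    (shift m s l).degree = m.degree := by
  have h1 : m - Finsupp.single s 1 + Finsupp.single s 1 = m := by
    apply tsub_add_cancel_of_le
    rw [Finsupp.single_le_iff]
    omega
  have h2 : (m - Finsupp.single s 1).degree + 1 = m.degree := by
    conv_rhs => rw [← h1]
    rw [map_add, Finsupp.degree_single]
  rw [shift, map_add, Finsupp.degree_single, h2]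

theorem mon_shift (Y : Matrix (Fin g) (Fin n) R[X]) (m : Fin g × Fin n →₀ ℕ)
    (s : Fin g × Fin n) (l : Fin n) :
    mon Y (shift m s l) = (∏ t ∈ univ.erase s, Y t.1 t.2 ^ m t) * Y s.1 s.2 ^ (m s - 1) *
      Y s.1 l := by
  have e1 : mon Y (shift m s l) =
      (∏ t : Fin g × Fin n, Y t.1 t.2 ^ ((m - Finsupp.single s 1 : Fin g × Fin n →₀ ℕ) t)) *
      ∏ t : Fin g × Fin n, Y t.1 t.2 ^
        ((Finsupp.single ((s.1, l) : Fin g × Fin n) 1 : Fin g × Fin n →₀ ℕ) t) := by
    rw [mon, shift, ← Finset.prod_mul_distrib]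
    refine Finset.prod_congr rfl fun t _ => ?_
    rw [Finsupp.add_apply, pow_add]
  have e2 : ∏ t : Fin g × Fin n, Y t.1 t.2 ^
      ((Finsupp.single ((s.1, l) : Fin g × Fin n) 1 : Fin g × Fin n →₀ ℕ) t) =
      Y s.1 l := by
    rw [Finset.prod_eq_single (s.1, l)]
    · rw [Finsupp.single_eq_same, pow_one]
    · intro t _ ht
      rw [Finsupp.single_eq_of_ne ht, pow_zero]
    · intro h; exact absurd (Finset.mem_univ _) h
  have e3 : (∏ t : Fin g × Fin n, Y t.1 t.2 ^ ((m - Finsupp.single s 1 : Fin g × Fin n →₀ ℕ) t)) =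
      (∏ t ∈ univ.erase s, Y t.1 t.2 ^ m t) * Y s.1 s.2 ^ (m s - 1) := by
    rw [← Finset.prod_erase_mul _ _ (Finset.mem_univ s)]
    congr 1
    · refine Finset.prod_congr rfl fun t ht => ?_
      rw [Finsupp.tsub_apply, Finsupp.single_eq_of_ne (Finset.ne_of_mem_erase ht), tsub_zero]
    · rw [Finsupp.tsub_apply, Finsupp.single_eq_same]
  rw [e1, e2, e3]

/-- the differential equation of a monomial in the entries of `Y` when `q Y' = Y β` -/
theorem mon_ode (Y : Matrix (Fin g) (Fin n) R[X]) (q : R[X]) (β : Matrix (Fin n) (Fin n) R[X])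
    (h : ∀ i l, q * derivative (Y i l) = ∑ m, Y i m * β m l) (m : Fin g × Fin n →₀ ℕ) :
    q * derivative (mon Y m) = ∑ s, ∑ l, ((m s : R[X]) * β l s.2) * mon Y (shift m s l) := by
  rw [mon, Polynomial.derivative_prod_finset, Finset.mul_sum]
  refine Finset.sum_congr rfl fun s _ => ?_
  rw [Polynomial.derivative_pow]
  calc q * ((∏ t ∈ univ.erase s, Y t.1 t.2 ^ m t) *
        (Polynomial.C ((m s : ℕ) : R) * Y s.1 s.2 ^ (m s - 1) * derivative (Y s.1 s.2)))
      = (∏ t ∈ univ.erase s, Y t.1 t.2 ^ m t) * Y s.1 s.2 ^ (m s - 1) * (m s : R[X]) *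
          (q * derivative (Y s.1 s.2)) := by
        rw [Polynomial.C_eq_natCast]; ring
    _ = _ := by
        rw [h, Finset.mul_sum]
        refine Finset.sum_congr rfl fun l _ => ?_
        rw [mon_shift]
        ring

/-- coefficientwise derivative -/
noncomputable def dC {σ : Type*} (F : MvPolynomial σ R[X]) : MvPolynomial σ R[X] :=
  ∑ m ∈ F.support, MvPolynomial.monomial m (derivative (F.coeff m))

theorem coeff_dC {σ : Type*} (F : MvPolynomial σ R[X]) (m : σ →₀ ℕ) :
    (dC F).coeff m = derivative (F.coeff m) := by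
  classical
  rw [dC, MvPolynomial.coeff_sum]
  simp_rw [MvPolynomial.coeff_monomial]
  rw [Finset.sum_ite_eq']
  split_ifs with h
  · rfl
  · rw [MvPolynomial.notMem_support_iff.mp h, derivative_zero]

theorem dC_add {σ : Type*} (F G : MvPolynomial σ R[X]) : dC (F + G) = dC F + dC G := by
  ext1 m
  rw [MvPolynomial.coeff_add, coeff_dC, coeff_dC, coeff_dC, MvPolynomial.coeff_add, derivative_add]

theorem dC_mul_X {σ : Type*} (F : MvPolynomial σ R[X]) (s : σ) :
    dC (F * MvPolynomial.X s) = dC F * MvPolynomial.X s := by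
  classical
  ext1 m
  rw [coeff_dC, MvPolynomial.coeff_mul_X', MvPolynomial.coeff_mul_X']
  split_ifs with h
  · rw [coeff_dC]
  · rw [derivative_zero]

theorem dC_C {σ : Type*} (a : R[X]) :
    dC (MvPolynomial.C a : MvPolynomial σ R[X]) = MvPolynomial.C (derivative a) := by
  classical
  ext1 m
  rw [coeff_dC, MvPolynomial.coeff_C, MvPolynomial.coeff_C]
  split_ifs with h
  · rfl
  · rw [derivative_zero]

theorem totalDegree_dC {σ : Type*} (F : MvPolynomial σ R[X]) :
    (dC F).totalDegree ≤ F.totalDegree := by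
  apply MvPolynomial.totalDegree_finsetSum_le
  intro m hm
  exact (MvPolynomial.totalDegree_monomial_le _ _).trans (MvPolynomial.le_totalDegree hm)

/-- the operator of the differential equation -/
noncomputable def ODE (q : R[X]) (β : Matrix (Fin n) (Fin n) R[X])
    (F : MvPolynomial (Fin g × Fin n) R[X]) : MvPolynomial (Fin g × Fin n) R[X] :=
  MvPolynomial.C q * dC F + ∑ s : Fin g × Fin n, ∑ l, MvPolynomial.C (β l s.2) *
    MvPolynomial.X (s.1, l) * MvPolynomial.pderiv s F

/-- the differential equation of a polynomial in the entries of `Y` when `q Y' = Y β` -/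
theorem aeval_ode (Y : Matrix (Fin g) (Fin n) R[X]) (q : R[X]) (β : Matrix (Fin n) (Fin n) R[X])
    (h : ∀ i l, q * derivative (Y i l) = ∑ m, Y i m * β m l)
    (F : MvPolynomial (Fin g × Fin n) R[X]) :
    q * derivative (MvPolynomial.aeval (fun s => Y s.1 s.2) F) =
      MvPolynomial.aeval (fun s => Y s.1 s.2) (ODE q β F) := by
  induction F using MvPolynomial.induction_on with
  | C a =>
    rw [ODE, dC_C, map_add, map_mul, MvPolynomial.aeval_C, MvPolynomial.aeval_C,
      MvPolynomial.aeval_C]
    simp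
  | add F G hF hG =>
    have e : ODE q β (F + G) = ODE q β F + ODE q β G := by
      rw [ODE, ODE, ODE, dC_add, mul_add]
      simp_rw [map_add, mul_add, Finset.sum_add_distrib]
      ring
    rw [e, map_add, map_add, map_add, mul_add, hF, hG]
  | mul_X F s hF =>
    have e : ODE q β (F * MvPolynomial.X s) = ODE q β F * MvPolynomial.X s +
        F * ∑ l, MvPolynomial.C (β l s.2) * MvPolynomial.X (s.1, l) := by
      rw [ODE, ODE, dC_mul_X, add_mul, Finset.sum_mul, ← mul_assoc, add_assoc]
      congr 1
      have e1 : ∀ t : Fin g × Fin n, (∑ l, MvPolynomial.C (β l t.2) * MvPolynomial.X (t.1, l) *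
          MvPolynomial.pderiv t (F * MvPolynomial.X s)) =
          (∑ l, MvPolynomial.C (β l t.2) * MvPolynomial.X (t.1, l) * MvPolynomial.pderiv t F) *
            MvPolynomial.X s + (if t = s then F * ∑ l, MvPolynomial.C (β l s.2) *
              (MvPolynomial.X (s.1, l) : MvPolynomial (Fin g × Fin n) R[X]) else 0) := by
        intro t
        rw [Finset.sum_mul]
        by_cases hts : t = s
        · subst hts
          rw [if_pos rfl, Finset.mul_sum, ← Finset.sum_add_distrib]
          refine Finset.sum_congr rfl fun l _ => ?_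
          rw [MvPolynomial.pderiv_mul, MvPolynomial.pderiv_X_self]
          ring
        · rw [if_neg hts, add_zero]
          refine Finset.sum_congr rfl fun l _ => ?_
          rw [MvPolynomial.pderiv_mul, MvPolynomial.pderiv_X_of_ne (Ne.symm hts)]
          ring
      rw [Finset.sum_congr rfl fun t _ => e1 t, Finset.sum_add_distrib, Finset.sum_ite_eq',
        if_pos (Finset.mem_univ _)]
    have e3 : MvPolynomial.aeval (fun s : Fin g × Fin n => Y s.1 s.2) (F * MvPolynomial.X s) =
        MvPolynomial.aeval (fun s : Fin g × Fin n => Y s.1 s.2) F * Y s.1 s.2 := by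
      rw [map_mul, MvPolynomial.aeval_X]
    have e4 : MvPolynomial.aeval (fun s : Fin g × Fin n => Y s.1 s.2)
        (ODE q β F * MvPolynomial.X s +
          F * ∑ l, MvPolynomial.C (β l s.2) * MvPolynomial.X (s.1, l)) =
        MvPolynomial.aeval (fun s : Fin g × Fin n => Y s.1 s.2) (ODE q β F) * Y s.1 s.2 +
        MvPolynomial.aeval (fun s : Fin g × Fin n => Y s.1 s.2) F *
          ∑ l, MvPolynomial.aeval (fun s : Fin g × Fin n => Y s.1 s.2)
            (MvPolynomial.C (β l s.2) * MvPolynomial.X (s.1, l)) := by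
      rw [map_add, map_mul, map_mul, MvPolynomial.aeval_X, map_sum]
    rw [e, e3, e4, ← hF, derivative_mul, mul_add]
    have e2 : q * (MvPolynomial.aeval (fun s => Y s.1 s.2) F * derivative (Y s.1 s.2)) =
        MvPolynomial.aeval (fun s => Y s.1 s.2) F *
          ∑ l, MvPolynomial.aeval (fun s => Y s.1 s.2)
            (MvPolynomial.C (β l s.2) * MvPolynomial.X (s.1, l)) := by
      calc q * (MvPolynomial.aeval (fun s => Y s.1 s.2) F * derivative (Y s.1 s.2)) =
          MvPolynomial.aeval (fun s => Y s.1 s.2) F * (q * derivative (Y s.1 s.2)) := by ring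
        _ = _ := by
          rw [h]
          congr 1
          refine Finset.sum_congr rfl fun l _ => ?_
          rw [map_mul, MvPolynomial.aeval_C, MvPolynomial.aeval_X, mul_comm]
          rfl
    rw [e2]
    ring

theorem totalDegree_ODE (q : R[X]) (β : Matrix (Fin n) (Fin n) R[X])
    (F : MvPolynomial (Fin g × Fin n) R[X]) : (ODE q β F).totalDegree ≤ F.totalDegree := by
  classical
  rw [ODE]
  refine (MvPolynomial.totalDegree_add _ _).trans (max_le ?_ ?_)
  · refine (MvPolynomial.totalDegree_mul _ _).trans ?_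
    rw [MvPolynomial.totalDegree_C, zero_add]
    exact totalDegree_dC F
  · apply MvPolynomial.totalDegree_finsetSum_le
    intro s _
    apply MvPolynomial.totalDegree_finsetSum_le
    intro l _
    by_cases hp : MvPolynomial.pderiv s F = 0
    · rw [hp, mul_zero, MvPolynomial.totalDegree_zero]; exact Nat.zero_le _
    · have h1 : (MvPolynomial.pderiv s F).totalDegree + 1 ≤ F.totalDegree := by
        obtain ⟨m, hm, hmax⟩ := Finset.exists_mem_eq_sup _
          (MvPolynomial.support_nonempty.mpr hp) (fun m => m.sum fun _ e => e)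
        have h2 : m + Finsupp.single s 1 ∈ F.support := by
          rw [MvPolynomial.mem_support_iff] at hm ⊢
          intro h0
          apply hm
          rw [MvPolynomial.coeff_pderiv, h0, zero_mul]
        have h3 := MvPolynomial.le_totalDegree h2
        rw [MvPolynomial.totalDegree, hmax]
        refine le_trans (le_of_eq ?_) h3
        rw [Finsupp.sum_add_index' (fun _ => rfl) (fun _ _ _ => rfl), Finsupp.sum_single_index rfl]
      refine (MvPolynomial.totalDegree_mul _ _).trans (le_trans ?_ h1)
      have h4 : (MvPolynomial.C (β l s.2) *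
          (MvPolynomial.X (s.1, l) : MvPolynomial (Fin g × Fin n) R[X])).totalDegree ≤ 1 := by
        refine (MvPolynomial.totalDegree_mul _ _).trans ?_
        rw [MvPolynomial.totalDegree_C, zero_add]
        exact MvPolynomial.totalDegree_monomial_le _ _ |>.trans (by simp)
      omega

/-- scaling: `mon (c Y) m = c ^ |m| mon Y m` -/
theorem mon_smul (c : R[X]) (Y : Matrix (Fin g) (Fin n) R[X]) (m : Fin g × Fin n →₀ ℕ) :
    mon (c • Y) m = c ^ m.degree * mon Y m := by
  rw [mon, mon]
  simp_rw [Matrix.smul_apply, smul_eq_mul, mul_pow]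
  rw [Finset.prod_mul_distrib, Finset.prod_pow_eq_pow_sum, Finsupp.degree_eq_sum]

theorem aeval_eq_sum_mon (Y : Matrix (Fin g) (Fin n) R[X])
    (F : MvPolynomial (Fin g × Fin n) R[X]) :
    MvPolynomial.aeval (fun s : Fin g × Fin n => Y s.1 s.2) F =
      ∑ m ∈ F.support, F.coeff m * mon Y m := by
  rw [MvPolynomial.aeval_eq_eval₂Hom, MvPolynomial.coe_eval₂Hom, MvPolynomial.eval₂_eq']
  rfl

/-- a polynomial of degree at most `d` in the entries of `Y`, in terms of the monomials in the entries
of `c Y` -/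
theorem aeval_scaled (c : R[X]) (Y : Matrix (Fin g) (Fin n) R[X]) {d : ℕ}
    (F : MvPolynomial (Fin g × Fin n) R[X]) (hF : F.totalDegree ≤ d) :
    c ^ d * MvPolynomial.aeval (fun s : Fin g × Fin n => Y s.1 s.2) F =
      ∑ m ∈ F.support, (F.coeff m * c ^ (d - m.degree)) * mon (c • Y) m := by
  rw [aeval_eq_sum_mon, Finset.mul_sum]
  refine Finset.sum_congr rfl fun m hm => ?_
  have h1 : m.degree ≤ d := by
    refine le_trans ?_ ((MvPolynomial.le_totalDegree hm).trans hF)
    rw [Finsupp.degree]
    exact le_of_eq rfl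
  rw [mon_smul]
  have h2 : c ^ d = c ^ (d - m.degree) * c ^ m.degree := by rw [← pow_add, Nat.sub_add_cancel h1]
  rw [h2]
  ring

/-- the equation of `Y` is the equation of `c Y` if `c' = 0` -/
theorem smul_ode (c : R[X]) (hc : derivative c = 0) (Y : Matrix (Fin g) (Fin n) R[X]) (q : R[X])
    (β : Matrix (Fin n) (Fin n) R[X])
    (h : ∀ i l, q * derivative (Y i l) = ∑ m, Y i m * β m l) (i : Fin g) (l : Fin n) :
    q * derivative ((c • Y) i l) = ∑ m, (c • Y) i m * β m l := by
  rw [Matrix.smul_apply, smul_eq_mul, derivative_mul, hc, zero_mul, zero_add, mul_left_comm, h,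
    Finset.mul_sum]
  refine Finset.sum_congr rfl fun m _ => ?_
  rw [Matrix.smul_apply, smul_eq_mul, mul_assoc]

end Pool.Agent.Helper36.BM
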