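import Mathlib

/-!
# The linear differential equations of the maximal minors
-/

set_option autoImplicit false

open Polynomial Matrix Finset

namespace Pool.Agent.Helper36.BM

/-- derivative of a determinant, column by column -/
theorem derivative_det {R : Type*} [CommRing R] {g : ℕ} (M : Matrix (Fin g) (Fin g) R[X]) :
    derivative M.det = ∑ c, (M.updateCol c fun i => derivative (M i c)).det := by
  rw [Matrix.det_apply]
  rw [map_sum]
  simp_rw [Matrix.det_apply]
  rw [Finset.sum_comm]
  refine Finset.sum_congr rfl fun σ _ => ?_
  have e0 : derivative (Equiv.Perm.sign σ • ∏ i, M (σ i) i) =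
      Equiv.Perm.sign σ • derivative (∏ i, M (σ i) i) := by
    exact map_zsmul (derivative : R[X] →ₗ[R] R[X]).toAddMonoidHom _ _
  rw [e0, Polynomial.derivative_prod_finset, Finset.smul_sum]
  refine Finset.sum_congr rfl fun c _ => ?_
  congr 1
  rw [← Finset.prod_erase_mul _ _ (Finset.mem_univ c)]
  congr 1
  · refine Finset.prod_congr rfl fun i hi => ?_
    rw [Matrix.updateCol_ne (Finset.ne_of_mem_erase hi)]
  · rw [Matrix.updateCol_self]

/-- the differential equations of the maximal minors of `Y` when `q Y' = Y β` -/
theorem minors_ode {R : Type*} [CommRing R] {g n : ℕ} (Y : Matrix (Fin g) (Fin n) R[X]) (q : R[X])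
    (β : Matrix (Fin n) (Fin n) R[X])
    (h : ∀ i l, q * derivative (Y i l) = ∑ m, Y i m * β m l) (J : Fin g → Fin n) :
    q * derivative (Y.submatrix id J).det = ∑ J' : Fin g → Fin n,
      (∑ c, ∑ l, if J' = Function.update J c l then β l (J c) else 0) *
        (Y.submatrix id J').det := by
  have key : ∀ c, q * ((Y.submatrix id J).updateCol c
      fun i => derivative ((Y.submatrix id J) i c)).det =
      ∑ l, β l (J c) * (Y.submatrix id (Function.update J c l)).det := by
    intro c
    rw [← Matrix.det_updateCol_smul]
    have e1 : (q • fun i => derivative ((Y.submatrix id J) i c)) =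
        ∑ l, β l (J c) • fun i => Y i l := by
      funext i
      rw [Pi.smul_apply, Finset.sum_apply, smul_eq_mul, Matrix.submatrix_apply, id, h]
      refine Finset.sum_congr rfl fun l _ => ?_
      rw [Pi.smul_apply, smul_eq_mul, mul_comm]
    rw [e1]
    have e2 : ∀ s : Finset (Fin n), ((Y.submatrix id J).updateCol c
        (∑ l ∈ s, β l (J c) • fun i => Y i l)).det =
        ∑ l ∈ s, β l (J c) * (Y.submatrix id (Function.update J c l)).det := by
      intro s
      induction s using Finset.induction_on with
      | empty =>
        rw [Finset.sum_empty, Finset.sum_empty]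
        exact Matrix.det_eq_zero_of_column_eq_zero c fun i => by rw [Matrix.updateCol_self]; rfl
      | insert l s hl ih =>
        rw [Finset.sum_insert hl, Finset.sum_insert hl, Matrix.det_updateCol_add, ih,
          Matrix.det_updateCol_smul]
        congr 3
        ext i j
        rw [Matrix.submatrix_apply]
        by_cases hj : j = c
        · subst hj
          rw [Matrix.updateCol_self, Function.update_self, id]
        · rw [Matrix.updateCol_ne hj, Function.update_of_ne hj, Matrix.submatrix_apply]
    exact e2 Finset.univ
  rw [derivative_det, Finset.mul_sum]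
  have e3 : ∀ J' : Fin g → Fin n,
      (∑ c, ∑ l, if J' = Function.update J c l then β l (J c) else 0) *
        (Y.submatrix id J').det = ∑ c, ∑ l, (if J' = Function.update J c l then β l (J c) else 0) *
        (Y.submatrix id J').det := by
    intro J'
    rw [Finset.sum_mul]
    exact Finset.sum_congr rfl fun c _ => Finset.sum_mul _ _ _
  rw [Finset.sum_congr rfl fun J' _ => e3 J', Finset.sum_comm]
  refine Finset.sum_congr rfl fun c _ => ?_
  rw [key, Finset.sum_comm]
  refine Finset.sum_congr rfl fun l _ => ?_
  simp_rw [ite_mul, zero_mul]
  rw [Finset.sum_ite_eq' Finset.univ (Function.update J c l)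
    (fun J' => β l (J c) * (Y.submatrix id J').det), if_pos (Finset.mem_univ _)]

end Pool.Agent.Helper36.BM
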