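import Pool.Agent.Helper62.BM.Stm

/-!
# Package P2: residues
-/

set_option autoImplicit false

open Polynomial Matrix Finset

namespace Pool.Agent.Helper36.BM

open Pool.Agent.Helper62.BM

theorem desc_zmod (p : ℕ) [Fact p.Prime] : descPochhammer (ZMod p) p = X ^ p - X := by
  have hp : p.Prime := Fact.out
  have h1 : (descPochhammer (ZMod p) p).Monic := monic_descPochhammer _ _
  have h2 : (X ^ p - X : (ZMod p)[X]).Monic := by
    apply monic_X_pow_sub
    rw [degree_X]
    exact_mod_cast hp.one_lt
  have hd1 : (descPochhammer (ZMod p) p).natDegree = p := descPochhammer_natDegree _ _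
  have hd2 : (X ^ p - X : (ZMod p)[X]).natDegree = p := FiniteField.X_pow_card_sub_X_natDegree_eq _ hp.one_lt
  rw [← sub_eq_zero]
  apply eq_zero_of_natDegree_lt_card_of_eval_eq_zero (ι := ZMod p) _ (f := id) Function.injective_id
  · intro a
    rw [eval_sub]
    have e1 : eval (id a) (descPochhammer (ZMod p) p) = 0 := by
      have h3 : (id a : ZMod p) = ((a.val : ℕ) : ZMod p) := by simp
      rw [h3, descPochhammer_eval_eq_descFactorial, Nat.descFactorial_of_lt (ZMod.val_lt a)]
      simp
    have e2 : eval (id a) (X ^ p - X : (ZMod p)[X]) = 0 := by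
      simp [ZMod.pow_card]
    rw [e1, e2, sub_zero]
  · rw [ZMod.card]
    have h3 : (descPochhammer (ZMod p) p - (X ^ p - X)).degree < (descPochhammer (ZMod p) p).degree := by
      apply degree_sub_lt_left
      · rw [degree_eq_natDegree h1.ne_zero, degree_eq_natDegree h2.ne_zero, hd1, hd2]
      · exact h1.ne_zero
      · rw [h1.leadingCoeff, h2.leadingCoeff]
    by_cases h0 : descPochhammer (ZMod p) p - (X ^ p - X) = 0
    · rw [h0, natDegree_zero]
      exact hp.pos
    · have := natDegree_lt_natDegree h0 h3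
      rwa [hd1] at this

theorem desc_int (p : ℕ) [Fact p.Prime] : ∃ r : ℤ[X],
    descPochhammer ℤ p = X ^ p - X + C (p : ℤ) * r := by
  have h1 : C (p : ℤ) ∣ descPochhammer ℤ p - (X ^ p - X) := by
    rw [C_dvd_iff_dvd_coeff]
    intro i
    rw [← ZMod.intCast_zmod_eq_zero_iff_dvd]
    have h2 : (descPochhammer ℤ p - (X ^ p - X)).map (Int.castRingHom (ZMod p)) = 0 := by
      rw [Polynomial.map_sub, descPochhammer_map, desc_zmod]
      simp
    have h3 : ((descPochhammer ℤ p - (X ^ p - X)).map (Int.castRingHom (ZMod p))).coeff i = 0 := by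
      rw [h2, coeff_zero]
    rw [coeff_map] at h3
    exact h3
  obtain ⟨r, hr⟩ := h1
  exact ⟨r, by linear_combination hr⟩

section
variable {K : Type} [Field K] {N : Type} [Fintype N]

theorem nab_add (D : Derivation ℤ K K) (B : Matrix N N K) (u v : N → K) :
    nab D B (u + v) = nab D B u + nab D B v := by
  funext i
  simp only [nab, Pi.add_apply, map_add, Matrix.mulVec_add]
  ring

theorem nab_smul (D : Derivation ℤ K K) (B : Matrix N N K) (f : K) (u : N → K) :
    nab D B (f • u) = D f • u + f • nab D B u := by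
  funext i
  simp only [nab, Pi.add_apply, Pi.smul_apply, smul_eq_mul, Matrix.mulVec_smul, Derivation.leibniz]
  ring

/-- `s ∇` as an additive operator -/
noncomputable def dl (D : Derivation ℤ K K) (B : Matrix N N K) (s : K) : (N → K) →ₗ[ℤ] (N → K) :=
  AddMonoidHom.toIntLinearMap
    { toFun := fun u => s • nab D B u
      map_zero' := by
        have := nab_smul D B 0 (0 : N → K)
        simp only [zero_smul, map_zero, add_zero] at this
        rw [this, smul_zero]
      map_add' := fun u v => by rw [nab_add, smul_add] }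

theorem dl_apply (D : Derivation ℤ K K) (B : Matrix N N K) (s : K) (u : N → K) :
    dl D B s u = s • nab D B u := rfl

theorem dl_desc (D : Derivation ℤ K K) (B : Matrix N N K) (s : K) (hs : D s = 1) (u : N → K)
    (n : ℕ) : s ^ n • (nab D B)^[n] u = (aeval (dl D B s) (descPochhammer ℤ n)) u := by
  induction n with
  | zero => simp
  | succ n ih =>
    rw [descPochhammer_succ_right, mul_comm, map_mul, Module.End.mul_apply, ← ih]
    generalize hw : (nab D B)^[n] u = w
    rw [Function.iterate_succ_apply', hw]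
    have e1 : (aeval (dl D B s) (X - (n : ℤ[X]))) (s ^ n • w) =
        dl D B s (s ^ n • w) - (n : ℤ) • (s ^ n • w) := by
      rw [map_sub, aeval_X, map_natCast]
      simp [LinearMap.sub_apply]
    rw [e1, dl_apply, nab_smul]
    have e2 : D (s ^ n) = n * s ^ (n - 1) := by
      rw [Derivation.leibniz_pow, hs]
      simp
    rw [e2]
    funext i
    simp only [Pi.smul_apply, Pi.sub_apply, Pi.add_apply, smul_eq_mul, zsmul_eq_mul,
      Pi.mul_apply, Pi.natCast_apply, Int.cast_natCast]
    rcases Nat.eq_zero_or_pos n with h0 | h0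
    · subst h0
      simp
    · have e3 : s ^ n = s * s ^ (n - 1) := by
        rw [← pow_succ', Nat.sub_add_cancel h0]
      linear_combination ((n : K) * w i) * e3

theorem dl_char (D : Derivation ℤ K K) (B : Matrix N N K) (s : K) (hs : D s = 1) (p : ℕ)
    [Fact p.Prime] [CharP K p] (u : N → K) :
    s ^ p • (nab D B)^[p] u = ((dl D B s) ^ p) u - dl D B s u := by
  obtain ⟨r, hr⟩ := desc_int p
  rw [dl_desc D B s hs u p, hr]
  have h1 : (aeval (dl D B s) (C (p : ℤ) * r)) u = 0 := by
    rw [map_mul, aeval_C, Module.End.mul_apply]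
    simp only [eq_intCast, Int.cast_natCast]
    funext i
    have : (((p : ℕ) : Module.End ℤ (N → K)) ((aeval (dl D B s) r) u)) =
        (p : ℕ) • ((aeval (dl D B s) r) u) := by
      simp
    rw [this]
    simp
  rw [map_add, LinearMap.add_apply, h1, add_zero, map_sub, map_pow, aeval_X, LinearMap.sub_apply]

end

section
variable {C : Type} [Field C]

/-- `u` is regular at `c` with the value `a` -/
def Val (c : C) (u : KX C) (a : C) : Prop :=
  ∃ n d : C[X], d.eval c ≠ 0 ∧ ι C d * u = ι C n ∧ n.eval c = a * d.eval c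

theorem ι_inj : Function.Injective (ι C) := IsFractionRing.injective C[X] (KX C)

theorem Val.unique {c : C} {u : KX C} {a b : C} (h1 : Val c u a) (h2 : Val c u b) : a = b := by
  obtain ⟨n1, d1, hd1, e1, v1⟩ := h1
  obtain ⟨n2, d2, hd2, e2, v2⟩ := h2
  have h3 : ι C (d2 * n1) = ι C (d1 * n2) := by
    rw [map_mul, map_mul, ← e1, ← e2]
    ring
  have h4 := congrArg (Polynomial.eval c) (ι_inj h3)
  rw [eval_mul, eval_mul, v1, v2] at h4
  have h5 : (a - b) * (d1.eval c * d2.eval c) = 0 := by linear_combination h4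
  rcases mul_eq_zero.1 h5 with h6 | h6
  · exact sub_eq_zero.1 h6
  · exact absurd h6 (mul_ne_zero hd1 hd2)

theorem Val.ofPoly (c : C) (q : C[X]) : Val c (ι C q) (q.eval c) :=
  ⟨q, 1, by simp, by simp, by simp⟩

theorem Val.zero (c : C) : Val c 0 0 := ⟨0, 1, by simp, by simp, by simp⟩

theorem Val.add {c : C} {u v : KX C} {a b : C} (h1 : Val c u a) (h2 : Val c v b) :
    Val c (u + v) (a + b) := by
  obtain ⟨n1, d1, hd1, e1, v1⟩ := h1
  obtain ⟨n2, d2, hd2, e2, v2⟩ := h2
  refine ⟨n1 * d2 + n2 * d1, d1 * d2, ?_, ?_, ?_⟩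
  · rw [eval_mul]
    exact mul_ne_zero hd1 hd2
  · rw [map_add, map_mul, map_mul, map_mul, ← e1, ← e2]
    ring
  · rw [eval_add, eval_mul, eval_mul, eval_mul, v1, v2]
    ring

theorem Val.mul {c : C} {u v : KX C} {a b : C} (h1 : Val c u a) (h2 : Val c v b) :
    Val c (u * v) (a * b) := by
  obtain ⟨n1, d1, hd1, e1, v1⟩ := h1
  obtain ⟨n2, d2, hd2, e2, v2⟩ := h2
  refine ⟨n1 * n2, d1 * d2, ?_, ?_, ?_⟩
  · rw [eval_mul]
    exact mul_ne_zero hd1 hd2
  · rw [map_mul, map_mul, ← e1, ← e2]
    ring
  · rw [eval_mul, eval_mul, v1, v2]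
    ring

theorem Val.sum {c : C} {J : Type} (S : Finset J) {u : J → KX C} {a : J → C}
    (h : ∀ j ∈ S, Val c (u j) (a j)) : Val c (∑ j ∈ S, u j) (∑ j ∈ S, a j) := by
  classical
  induction S using Finset.induction_on with
  | empty => simpa using Val.zero c
  | insert j S hj ih =>
    rw [Finset.sum_insert hj, Finset.sum_insert hj]
    exact (h j (Finset.mem_insert_self _ _)).add
      (ih fun i hi => h i (Finset.mem_insert_of_mem hi))

theorem Val.sder {D : Derivation ℤ (KX C) (KX C)} (hD : IsDer D) {c : C} {u : KX C} {a : C}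
    (h : Val c u a) : Val c (ι C (X - Polynomial.C c) * D u) 0 := by
  obtain ⟨n, d, hd, e, v⟩ := h
  have h1 : ι C d * D u + u * ι C (derivative d) = ι C (derivative n) := by
    have := congrArg D e
    rw [Derivation.leibniz, hD, hD] at this
    simpa [smul_eq_mul] using this
  refine ⟨(X - Polynomial.C c) * (d * derivative n - derivative d * n), d * d, ?_, ?_, ?_⟩
  · rw [eval_mul]
    exact mul_ne_zero hd hd
  · simp only [map_mul, map_sub]
    linear_combination (ι C X - ι C (Polynomial.C c)) * ι C d * h1 -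
      (ι C X - ι C (Polynomial.C c)) * ι C (derivative d) * e
  · simp

end

theorem res : S_Res := by
  intro C _ p _ _ D hD N _ _ B M w c hw hB v hv
  have : CharP (KX C) p := by
    refine charP_of_injective_ringHom (f := (ι C).comp Polynomial.C) ?_ p
    exact (ι_inj (C := C)).comp Polynomial.C_injective
  have hs : D (ι C (X - Polynomial.C c)) = 1 := by
    rw [hD]
    simp
  have h1 := dl_char D B (ι C (X - Polynomial.C c)) hs p (fun i => ι C (v i))
  rw [hv, smul_zero] at h1
  set R : Matrix N N C := (w.eval c)⁻¹ • M.map (Polynomial.eval c) with hR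
  have hstep : ∀ (u : N → KX C) (a : N → C), (∀ i, Val c (u i) (a i)) →
      ∀ i, Val c (dl D B (ι C (X - Polynomial.C c)) u i) ((R *ᵥ a) i) := by
    intro u a hu i
    have e1 : dl D B (ι C (X - Polynomial.C c)) u i = ι C (X - Polynomial.C c) * D (u i) +
        ∑ j, (ι C (X - Polynomial.C c) * B i j) * u j := by
      rw [dl_apply]
      simp only [Pi.smul_apply, smul_eq_mul, nab, Matrix.mulVec, dotProduct, mul_add,
        Finset.mul_sum, mul_assoc]
    have e2 : (R *ᵥ a) i = 0 + ∑ j, R i j * a j := by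
      simp [Matrix.mulVec, dotProduct]
    rw [e1, e2]
    refine (Val.sder hD (hu i)).add (Val.sum _ fun j _ => Val.mul ?_ (hu j))
    refine ⟨M i j, w, hw, ?_, ?_⟩
    · rw [← hB i j, map_mul]
      ring
    · rw [hR]
      simp only [Matrix.smul_apply, Matrix.map_apply, smul_eq_mul]
      field_simp
  have hpow : ∀ (k : ℕ) (i : N), Val c (((dl D B (ι C (X - Polynomial.C c))) ^ k)
      (fun i => ι C (v i)) i) (((R ^ k) *ᵥ (fun i => (v i).eval c)) i) := by
    intro k
    induction k with
    | zero =>
      intro i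
      simpa using Val.ofPoly c (v i)
    | succ k ih =>
      intro i
      rw [pow_succ', pow_succ', Module.End.mul_apply, ← Matrix.mulVec_mulVec]
      exact hstep _ _ ih i
  funext i
  have h2 := hpow p i
  have h3 := hpow 1 i
  rw [pow_one, pow_one] at h3
  have h4 : ((dl D B (ι C (X - Polynomial.C c))) ^ p) (fun i => ι C (v i)) =
      dl D B (ι C (X - Polynomial.C c)) (fun i => ι C (v i)) := (sub_eq_zero.1 h1.symm)
  rw [h4] at h2
  exact h2.unique h3

end Pool.Agent.Helper36.BM
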